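import Mathlib
import Pool.Agent.Helper105_Tree.Enum
import Pool.Agent.Y566.GQ.Gen

/-!
# Ideals with the countable chain condition

Measurable functions have only countably many fibres outside of a σ-ideal with the countable chain
condition.
-/

set_option autoImplicit false

namespace Pool.Agent.L5helper75.QC

open Set MeasureTheory

/-- `I` is a σ-ideal of subsets of the measurable space `Y` which satisfies the countable chain
condition: every family of pairwise disjoint measurable sets outside of `I` is countable. -/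
structure IsCcc {Y : Type*} [MeasurableSpace Y] (I : Set (Set Y)) : Prop where
  empty : ∅ ∈ I
  mono : ∀ A B : Set Y, A ⊆ B → B ∈ I → A ∈ I
  iUnion : ∀ A : ℕ → Set Y, (∀ n, A n ∈ I) → (⋃ n, A n) ∈ I
  ccc : ∀ 𝒜 : Set (Set Y), (∀ A ∈ 𝒜, MeasurableSet A ∧ A ∉ I) → 𝒜.Pairwise Disjoint → 𝒜.Countable

theorem IsCcc.union {Y : Type*} [MeasurableSpace Y] {I : Set (Set Y)} (hI : IsCcc I) {A B : Set Y}
    (hA : A ∈ I) (hB : B ∈ I) : A ∪ B ∈ I := by
  have h := hI.iUnion (fun n => if n = 0 then A else B) (by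
    intro n
    by_cases h : n = 0
    · simp [h, hA]
    · simp [h, hB])
  refine hI.mono _ _ ?_ h
  rintro x (hx | hx)
  · exact mem_iUnion.2 ⟨0, by simpa using hx⟩
  · exact mem_iUnion.2 ⟨1, by simpa using hx⟩

/-- the fibres of a measurable function which are not in the ideal are countably many -/
theorem IsCcc.fibres {Y T : Type*} [MeasurableSpace Y] [MeasurableSpace T]
    [MeasurableSingletonClass T] {I : Set (Set Y)} (hI : IsCcc I) {g : Y → T} (hg : Measurable g)
    {D : Set Y} (hD : MeasurableSet D) : {t | D ∩ g ⁻¹' {t} ∉ I}.Countable := by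
  have h1 : ((fun t => D ∩ g ⁻¹' {t}) '' {t | D ∩ g ⁻¹' {t} ∉ I}).Countable := by
    refine hI.ccc _ ?_ ?_
    · rintro _ ⟨t, ht, rfl⟩
      exact ⟨hD.inter (hg (measurableSet_singleton t)), ht⟩
    · rintro _ ⟨t, ht, rfl⟩ _ ⟨t', ht', rfl⟩ hne
      refine Set.disjoint_left.2 ?_
      rintro x ⟨-, hx⟩ ⟨-, hx'⟩
      apply hne
      have e1 : g x = t := hx
      have e2 : g x = t' := hx'
      rw [← e1, ← e2]
  refine Set.countable_of_injective_of_countable_image ?_ h1
  intro t ht t' ht' h
  by_contra hne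
  apply ht
  have h2 : D ∩ g ⁻¹' {t} = ∅ := by
    refine eq_empty_of_forall_notMem ?_
    intro x hx
    have hx' : x ∈ D ∩ g ⁻¹' {t'} := by
      rw [← show (fun t => D ∩ g ⁻¹' {t}) t' = D ∩ g ⁻¹' {t'} from rfl, ← h]
      exact hx
    have e1 : g x = t := hx.2
    have e2 : g x = t' := hx'.2
    exact hne (e1.symm.trans e2)
  show D ∩ g ⁻¹' {t} ∈ I
  rw [h2]
  exact hI.empty

end Pool.Agent.L5helper75.QC
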