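import Mathlib
import Pool.Agent.L5helper75.QC.Core

/-!
# The category quantifier

For a Borel subset `X` of `S × Y`, `Y` Polish, the set of all `s` with a meagre section `X_s` is Borel,
and the meagre sets form a σ-ideal with the countable chain condition.
-/

set_option autoImplicit false

namespace Pool.Agent.L5helper75.QC

open Set MeasureTheory Filter

/-- a set and an open set with a meagre difference -/
theorem exists_open {Y : Type*} [TopologicalSpace Y] [MeasurableSpace Y] [BorelSpace Y]
    {B : Set Y} (hB : MeasurableSet B) :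
    ∃ O : Set Y, IsOpen O ∧ IsMeagre (B \ O) ∧ IsMeagre (O \ B) := by
  obtain ⟨O, hO, h⟩ := hB.residualEq_isOpen
  refine ⟨O, hO, ?_, ?_⟩
  · rw [IsMeagre]
    filter_upwards [h] with y hy
    have hy' : (y ∈ B) = (y ∈ O) := hy
    exact fun h1 => h1.2 (hy' ▸ h1.1)
  · rw [IsMeagre]
    filter_upwards [h] with y hy
    have hy' : (y ∈ B) = (y ∈ O) := hy
    exact fun h1 => h1.2 (hy' ▸ h1.1)

theorem isCcc_meagre {Y : Type*} [TopologicalSpace Y] [SecondCountableTopology Y] [BaireSpace Y]
    [MeasurableSpace Y] [BorelSpace Y] : IsCcc {A : Set Y | IsMeagre A} where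
  empty := IsMeagre.empty
  mono := fun _ _ h hB => hB.mono h
  iUnion := fun _ h => isMeagre_iUnion h
  ccc := by
    classical
    intro 𝒜 h𝒜 hd
    have h1 : ∀ A ∈ 𝒜, ∃ O : Set Y, IsOpen O ∧ IsMeagre (A \ O) ∧ IsMeagre (O \ A) :=
      fun A hA => exists_open (h𝒜 A hA).1
    choose! O hO hAO hOA using h1
    refine Set.PairwiseDisjoint.countable_of_isOpen (s := O) ?_ hO ?_
    · intro A hA A' hA' hne
      show Disjoint (O A) (O A')
      rw [Set.disjoint_iff_inter_eq_empty]
      by_contra hcon
      refine not_isMeagre_of_isOpen ((hO A hA).inter (hO A' hA'))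
        (Set.nonempty_iff_ne_empty.2 hcon) ?_
      refine ((hOA A hA).union (hOA A' hA')).mono ?_
      rintro y ⟨hy, hy'⟩
      by_cases h2 : y ∈ A
      · refine Or.inr ⟨hy', fun h3 => ?_⟩
        exact Set.disjoint_left.1 (hd hA hA' hne) h2 h3
      · exact Or.inl ⟨hy, h2⟩
    · intro A hA
      rw [Set.nonempty_iff_ne_empty]
      intro h2
      apply (h𝒜 A hA).2
      have h3 := hAO A hA
      rw [h2, Set.sdiff_empty] at h3
      exact h3

/-- relative version over all open sets -/
theorem meas_meagre_aux {S Y : Type*} [MeasurableSpace S] [TopologicalSpace Y]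
    [SecondCountableTopology Y] [BaireSpace Y] [MeasurableSpace Y] [BorelSpace Y]
    {X : Set (S × Y)} (hX : MeasurableSet X) (V : Set Y) (hV : IsOpen V) :
    MeasurableSet {s | IsMeagre ({y | (s, y) ∈ X} ∩ V)} := by
  classical
  have key : ∀ X : Set (S × Y), MeasurableSet X → ∀ V : Set Y, IsOpen V →
      MeasurableSet {s | IsMeagre ({y | (s, y) ∈ X} ∩ V)} := by
    intro X hX
    have hX' : MeasurableSet[MeasurableSpace.generateFrom (image2 (fun (s : Set S) (t : Set Y) =>
        s ×ˢ t) {s | MeasurableSet s} {t | MeasurableSet t})] X := by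
      rw [generateFrom_prod]; exact hX
    induction X, hX' using MeasurableSpace.generateFrom_induction with
    | hC Z hZ _ =>
      obtain ⟨A, hA, B, hB, rfl⟩ := hZ
      intro V hV
      by_cases h : IsMeagre (B ∩ V)
      · have e : {s | IsMeagre ({y | (s, y) ∈ A ×ˢ B} ∩ V)} = univ := by
          refine eq_univ_of_forall fun s => ?_
          refine h.mono ?_
          rintro y ⟨hy, hyV⟩
          exact ⟨hy.2, hyV⟩
        rw [e]; exact MeasurableSet.univ
      · have e : {s | IsMeagre ({y | (s, y) ∈ A ×ˢ B} ∩ V)} = Aᶜ := by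
          ext s
          constructor
          · intro h1 hs
            apply h
            refine IsMeagre.mono ?_ h1
            rintro y ⟨hy, hyV⟩
            exact ⟨⟨hs, hy⟩, hyV⟩
          · intro hs
            refine IsMeagre.empty.mono ?_
            rintro y ⟨hy, hyV⟩
            exact absurd hy.1 hs
        rw [e]; exact MeasurableSet.compl hA
    | empty =>
      intro V hV
      have e : {s : S | IsMeagre ({y : Y | (s, y) ∈ (∅ : Set (S × Y))} ∩ V)} = univ := by
        refine eq_univ_of_forall fun s => ?_
        refine IsMeagre.empty.mono ?_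
        rintro y ⟨hy, hyV⟩
        exact hy
      rw [e]; exact MeasurableSet.univ
    | compl Z hZ ih =>
      have hZ' : MeasurableSet Z := by
        rw [generateFrom_prod] at hZ
        exact hZ
      have ih' := ih hZ'
      intro V hV
      have e : {s : S | IsMeagre ({y : Y | (s, y) ∈ Zᶜ} ∩ V)} =
          ⋂ W ∈ {W : Set Y | W ∈ TopologicalSpace.countableBasis Y ∧ W ⊆ V},
            {s : S | IsMeagre ({y : Y | (s, y) ∈ Z} ∩ W)}ᶜ := by
        ext s
        simp only [mem_iInter, mem_compl_iff, mem_ofPred_eq]
        constructor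
        · rintro h1 W ⟨hW, hWV⟩ h2
          refine not_isMeagre_of_isOpen (TopologicalSpace.isOpen_of_mem_countableBasis hW)
            (TopologicalSpace.nonempty_of_mem_countableBasis hW) ?_
          refine (h1.union h2).mono ?_
          intro y hy
          by_cases h3 : (s, y) ∈ Z
          · exact Or.inr ⟨h3, hy⟩
          · exact Or.inl ⟨h3, hWV hy⟩
        · intro h1
          have hs : MeasurableSet {y : Y | (s, y) ∈ Z} := measurable_prodMk_left hZ'
          obtain ⟨O, hO, hO1, hO2⟩ := exists_open hs.compl
          by_contra h2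
          have h3 : (O ∩ V).Nonempty := by
            rw [Set.nonempty_iff_ne_empty]
            intro h3
            apply h2
            refine hO1.mono ?_
            rintro y ⟨hy, hyV⟩
            refine ⟨hy, fun h4 => ?_⟩
            have : y ∈ O ∩ V := ⟨h4, hyV⟩
            rw [h3] at this
            exact this
          obtain ⟨y, hy⟩ := h3
          obtain ⟨W, hW, hyW, hWO⟩ :=
            (TopologicalSpace.isBasis_countableBasis Y).exists_subset_of_mem_open hy (hO.inter hV)
          refine h1 W ⟨hW, fun z hz => (hWO hz).2⟩ ?_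
          refine hO2.mono ?_
          rintro z ⟨hz, hzW⟩
          exact ⟨(hWO hzW).1, fun h4 => h4 hz⟩
      rw [e]
      refine MeasurableSet.biInter ?_ ?_
      · exact (TopologicalSpace.countable_countableBasis Y).mono fun W hW => hW.1
      · rintro W ⟨hW, -⟩
        exact (ih' W (TopologicalSpace.isOpen_of_mem_countableBasis hW)).compl
    | iUnion Z hZ ih =>
      intro V hV
      have hZ' : ∀ n, MeasurableSet (Z n) := by
        intro n
        have := hZ n
        rw [generateFrom_prod] at this
        exact this
      have e : {s : S | IsMeagre ({y : Y | (s, y) ∈ ⋃ n, Z n} ∩ V)} =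
          ⋂ n, {s : S | IsMeagre ({y : Y | (s, y) ∈ Z n} ∩ V)} := by
        ext s
        simp only [mem_iInter, mem_ofPred_eq]
        constructor
        · intro h n
          refine h.mono ?_
          rintro y ⟨hy, hyV⟩
          exact ⟨mem_iUnion.2 ⟨n, hy⟩, hyV⟩
        · intro h
          refine (isMeagre_iUnion h).mono ?_
          rintro y ⟨hy, hyV⟩
          obtain ⟨n, hn⟩ := mem_iUnion.1 hy
          exact mem_iUnion.2 ⟨n, hn, hyV⟩
      rw [e]
      exact MeasurableSet.iInter fun n => ih n (hZ' n) V hV
  exact key X hX V hV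

theorem meas_meagre {S Y : Type*} [MeasurableSpace S] [TopologicalSpace Y]
    [SecondCountableTopology Y] [BaireSpace Y] [MeasurableSpace Y] [BorelSpace Y]
    {X : Set (S × Y)} (hX : MeasurableSet X) :
    MeasurableSet {s | IsMeagre {y | (s, y) ∈ X}} := by
  have h := meas_meagre_aux hX univ isOpen_univ
  simpa using h

end Pool.Agent.L5helper75.QC
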