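import Mathlib

/-!
# Closures of initial segments

A family of partial functions `f β : B β → ℂ`, indexed by a well-order with countable initial
segments, and the countable sets `Cl α` which contain the points `z β` (`β ≤ α`) and are closed under
the `f β` (`β ≤ α`) and under the fibres of the `f β` with countable fibres.
-/

set_option autoImplicit false

namespace Pool.Agent.L5helper75.QC

open Set

section Rank

variable {J : Type*} [LinearOrder J] (z : J → ℂ) (B : J → Set ℂ) (f : J → ℂ → ℂ)

/-- all fibres of `f β` on `B β` are countable -/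
def CF (β : J) : Prop := ∀ w : ℂ, (B β ∩ f β ⁻¹' {w}).Countable

/-- one step of the closure -/
def stepT (α : J) (S : Set ℂ) : Set ℂ :=
  S ∪ ((⋃ β ∈ Iic α, f β '' (B β ∩ S)) ∪
    ⋃ β ∈ {β ∈ Iic α | CF B f β}, (B β ∩ f β ⁻¹' S))

/-- the closure -/
def Cl (α : J) : Set ℂ := ⋃ n : ℕ, (stepT B f α)^[n] (z '' Iic α)

variable {z B f}

theorem stepT_mono_set {α : J} {S T : Set ℂ} (h : S ⊆ T) : stepT B f α S ⊆ stepT B f α T := by
  refine union_subset_union h (union_subset_union ?_ ?_)
  · exact biUnion_mono subset_rfl fun β _ => image_mono (inter_subset_inter_right _ h)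
  · exact biUnion_mono subset_rfl fun β _ => inter_subset_inter_right _ (preimage_mono h)

theorem stepT_mono {α α' : J} (hα : α ≤ α') {S T : Set ℂ} (h : S ⊆ T) :
    stepT B f α S ⊆ stepT B f α' T := by
  refine (stepT_mono_set h).trans (union_subset_union subset_rfl (union_subset_union ?_ ?_))
  · exact biUnion_subset_biUnion_left (Iic_subset_Iic.2 hα)
  · refine biUnion_subset_biUnion_left ?_
    rintro β ⟨h1, h2⟩
    exact ⟨le_trans h1 hα, h2⟩

theorem subset_stepT (α : J) (S : Set ℂ) : S ⊆ stepT B f α S := subset_union_left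

theorem stepT_countable {α : J} (hα : (Iic α).Countable) {S : Set ℂ} (hS : S.Countable) :
    (stepT B f α S).Countable := by
  refine hS.union (Countable.union ?_ ?_)
  · exact hα.biUnion fun β _ => (hS.mono inter_subset_right).image _
  · refine (hα.mono fun β hβ => hβ.1).biUnion fun β hβ => ?_
    have e : B β ∩ f β ⁻¹' S = ⋃ w ∈ S, (B β ∩ f β ⁻¹' {w}) := by
      ext x
      simp only [mem_inter_iff, mem_preimage, mem_iUnion, mem_singleton_iff, exists_prop]
      constructor
      · rintro ⟨h1, h2⟩
        exact ⟨f β x, h2, h1, rfl⟩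
      · rintro ⟨w, h1, h2, h3⟩
        exact ⟨h2, h3 ▸ h1⟩
    rw [e]
    exact hS.biUnion fun w _ => hβ.2 w

theorem iter_mono {α α' : J} (hα : α ≤ α') {S T : Set ℂ} (h : S ⊆ T) (n : ℕ) :
    (stepT B f α)^[n] S ⊆ (stepT B f α')^[n] T := by
  induction n generalizing S T with
  | zero => exact h
  | succ n ih =>
    rw [Function.iterate_succ_apply, Function.iterate_succ_apply]
    exact ih (stepT_mono hα h)

theorem Cl_mono {α α' : J} (hα : α ≤ α') : Cl z B f α ⊆ Cl z B f α' :=
  iUnion_mono fun n => iter_mono hα (image_mono (Iic_subset_Iic.2 hα)) n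

theorem Cl_countable {α : J} (hα : (Iic α).Countable) : (Cl z B f α).Countable := by
  refine countable_iUnion fun n => ?_
  induction n with
  | zero => exact hα.image z
  | succ n ih =>
    rw [Function.iterate_succ_apply']
    exact stepT_countable hα ih

theorem Cl_base {α β : J} (h : β ≤ α) : z β ∈ Cl z B f α :=
  mem_iUnion.2 ⟨0, mem_image_of_mem z h⟩

theorem Cl_image {α β : J} (h : β ≤ α) {x : ℂ} (hx : x ∈ Cl z B f α) (hxB : x ∈ B β) :
    f β x ∈ Cl z B f α := by
  obtain ⟨n, hn⟩ := mem_iUnion.1 hx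
  refine mem_iUnion.2 ⟨n + 1, ?_⟩
  rw [Function.iterate_succ_apply']
  right
  left
  exact mem_biUnion (show β ∈ Iic α from h) ⟨x, ⟨hxB, hn⟩, rfl⟩

theorem Cl_fibre {α β : J} (h : β ≤ α) {x : ℂ} (hx : f β x ∈ Cl z B f α) (hxB : x ∈ B β)
    (hc : CF B f β) : x ∈ Cl z B f α := by
  obtain ⟨n, hn⟩ := mem_iUnion.1 hx
  refine mem_iUnion.2 ⟨n + 1, ?_⟩
  rw [Function.iterate_succ_apply']
  right
  right
  exact mem_biUnion (show β ∈ {β ∈ Iic α | CF B f β} from ⟨h, hc⟩) ⟨hxB, hn⟩

/-- countable sets are bounded in an uncountable well-order with countable initial segments -/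
theorem exists_bound (h1 : ∀ α : J, (Iic α).Countable) (h2 : ¬ Countable J) {S : Set J}
    (hS : S.Countable) : ∃ α, ∀ β ∈ S, β ≤ α := by
  by_contra hcon
  push Not at hcon
  apply h2
  have h3 : (univ : Set J).Countable := by
    refine (hS.biUnion fun β _ => h1 β).mono ?_
    intro α _
    obtain ⟨β, hβ, hlt⟩ := hcon α
    exact mem_biUnion hβ hlt.le
  exact countable_univ_iff.1 h3

end Rank

/-- under the continuum hypothesis, types of the cardinality of the continuum carry a well-order with
countable initial segments -/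
theorem exists_order {J : Type} (hJ : Cardinal.mk J = Cardinal.aleph 1) :
    ∃ (_ : LinearOrder J) (_ : WellFoundedLT J), ∀ α : J, (Iic α).Countable := by
  obtain ⟨h1, h2, h3⟩ := Cardinal.exists_ord_eq_type_lt J
  refine ⟨h1, h2, fun α => ?_⟩
  have h4 : Cardinal.mk (Iio α) < Cardinal.mk J := Cardinal.mk_Iio_lt α h3
  rw [hJ, ← Cardinal.succ_aleph0] at h4
  have h5 : (Iio α).Countable := by
    rw [← Cardinal.le_aleph0_iff_set_countable]
    exact Order.lt_succ_iff.1 h4
  rw [← Iio_union_right]
  exact h5.union (countable_singleton α)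

end Pool.Agent.L5helper75.QC
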