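import Mathlib
import Pool.Agent.L5helper75.QC.Cat
import Pool.Agent.R158.MM.Int

/-!
# Slender ideals

The σ-ideals for which Borel functions have only countably many large fibres are exactly the σ-ideals
modulo which the sections of Borel sets with countable or cocountable traces are constant off a
countable set.
-/

set_option autoImplicit false

namespace Pool.Agent.L5helper75.QC

open Set MeasureTheory Pool.Agent.TH735.QM Pool.Agent.Y566.GQ

/-- `I` is a σ-ideal of subsets of `Y` -/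
structure IsSigmaIdeal {Y : Type*} (I : Set (Set Y)) : Prop where
  empty : ∅ ∈ I
  mono : ∀ A B : Set Y, A ⊆ B → B ∈ I → A ∈ I
  iUnion : ∀ A : ℕ → Set Y, (∀ n, A n ∈ I) → (⋃ n, A n) ∈ I

/-- every Borel function `g : Y → ℂ` has at most countably many fibres outside of `I` -/
def Slender {Y : Type*} [MeasurableSpace Y] (I : Set (Set Y)) : Prop :=
  ∀ g : Y → ℂ, Measurable g → {t : ℂ | g ⁻¹' {t} ∉ I}.Countable

theorem IsCcc.sigma {Y : Type*} [MeasurableSpace Y] {I : Set (Set Y)} (h : IsCcc I) :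
    IsSigmaIdeal I := ⟨h.empty, h.mono, h.iUnion⟩

theorem IsCcc.slender {Y : Type*} [MeasurableSpace Y] {I : Set (Set Y)} (h : IsCcc I) :
    Slender I := by
  intro g hg
  have h1 := h.fibres hg MeasurableSet.univ
  simpa using h1

theorem IsSigmaIdeal.union {Y : Type*} {I : Set (Set Y)} (hI : IsSigmaIdeal I) {A B : Set Y}
    (hA : A ∈ I) (hB : B ∈ I) : A ∪ B ∈ I := by
  have h := hI.iUnion (fun n => if n = 0 then A else B) (by
    intro n
    by_cases h : n = 0
    · simp [h, hA]
    · simp [h, hB])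
  refine hI.mono _ _ ?_ h
  rintro x (hx | hx)
  · exact mem_iUnion.2 ⟨0, by simpa using hx⟩
  · exact mem_iUnion.2 ⟨1, by simpa using hx⟩

/-- the version with a partial function -/
theorem Slender.fibres {Y : Type*} [MeasurableSpace Y] {I : Set (Set Y)} (hI : IsSigmaIdeal I)
    (h : Slender I) {g : Y → ℂ} (hg : Measurable g) {D : Set Y} (hD : MeasurableSet D) :
    {t | D ∩ g ⁻¹' {t} ∉ I}.Countable := by
  classical
  have h1 := h (D.piecewise g (fun _ => 0)) (hg.piecewise hD measurable_const)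
  refine (h1.union (countable_singleton (0 : ℂ))).mono ?_
  intro t ht
  by_cases h0 : t = 0
  · exact Or.inr h0
  · left
    intro h2
    apply ht
    refine hI.mono _ _ ?_ h2
    rintro y ⟨hy, hyt⟩
    show D.piecewise g (fun _ => 0) y = t
    rw [Set.piecewise_eq_of_mem _ _ _ hy]
    exact hyt

theorem core {Y : Type*} [MeasurableSpace Y] [StandardBorelSpace Y] {U : Set ℂ}
    (hU : MeasurableSet U) {E : Set (ℂ × Y)} (hE : MeasurableSet E)
    (h : ∀ y, (U ∩ {t | (t, y) ∈ E}).Countable ∨ (U \ {t | (t, y) ∈ E}).Countable) :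
    ∃ A : Set Y, MeasurableSet A ∧ ∀ I : Set (Set Y), IsSigmaIdeal I → Slender I →
      ∃ C : Set ℂ, C.Countable ∧ ∀ t ∈ U, t ∉ C → symmDiff {y | (t, y) ∈ E} A ∈ I := by
  classical
  by_cases hUc : U.Countable
  · exact ⟨∅, MeasurableSet.empty, fun I _ _ => ⟨U, hUc, fun t ht htU => absurd ht htU⟩⟩
  obtain ⟨ν, hfin, hs, hu, hz⟩ := Pool.Agent.Y566.GQ.exists_atomless hU hUc
  set A : Set Y := {y | ν {t | (t, y) ∈ E} ≠ 0} with hA
  have hAm : MeasurableSet A := by
    have h1 : Measurable (fun y : Y => ν {t | (t, y) ∈ E}) :=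
      measurable_measure_prodMk_right hE
    exact (h1 (measurableSet_singleton 0)).compl
  have hnull : ∀ S : Set ℂ, (U ∩ S).Countable → ν S = 0 := by
    intro S hS
    have h2 : ν (U ∩ S) = 0 := hz _ hS
    refine le_antisymm ?_ bot_le
    calc ν S ≤ ν ((U ∩ S) ∪ Uᶜ) := measure_mono (by
          intro x hx
          by_cases hxU : x ∈ U
          · exact Or.inl ⟨hxU, hx⟩
          · exact Or.inr hxU)
      _ ≤ ν (U ∩ S) + ν Uᶜ := measure_union_le _ _
      _ = 0 := by rw [h2, hs, add_zero]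
  have hAt : ∀ y, y ∈ A → (U \ {t | (t, y) ∈ E}).Countable := by
    intro y hy
    rcases h y with h1 | h1
    · exact absurd (hnull _ h1) hy
    · exact h1
  have hAf : ∀ y, y ∉ A → (U ∩ {t | (t, y) ∈ E}).Countable := by
    intro y hy
    rcases h y with h1 | h1
    · exact h1
    · exfalso
      have h2 : ν {t | (t, y) ∈ E} = 0 := by
        by_contra h2
        exact hy h2
      have h3 : ν (U \ {t | (t, y) ∈ E}) = 0 := hz _ h1
      apply hu
      refine le_antisymm ?_ bot_le
      calc ν univ ≤ ν ({t | (t, y) ∈ E} ∪ ((U \ {t | (t, y) ∈ E}) ∪ Uᶜ)) := measure_mono (by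
            intro x _
            by_cases hx1 : (x, y) ∈ E
            · exact Or.inl hx1
            · by_cases hx2 : x ∈ U
              · exact Or.inr (Or.inl ⟨hx2, hx1⟩)
              · exact Or.inr (Or.inr hx2))
        _ ≤ ν {t | (t, y) ∈ E} + (ν (U \ {t | (t, y) ∈ E}) + ν Uᶜ) :=
            (measure_union_le _ _).trans (by gcongr; exact measure_union_le _ _)
        _ = 0 := by rw [h2, h3, hs]; simp
  -- the exceptional relation
  set R : Set (Y × ℂ) := {p | p.2 ∈ U ∧ ¬ ((p.2, p.1) ∈ E ↔ p.1 ∈ A)} with hR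
  have hRm : MeasurableSet R := by
    have h1 : MeasurableSet {p : Y × ℂ | p.2 ∈ U} := measurable_snd hU
    have h2 : MeasurableSet {p : Y × ℂ | (p.2, p.1) ∈ E} :=
      (measurable_snd.prodMk measurable_fst) hE
    have h3 : MeasurableSet {p : Y × ℂ | p.1 ∈ A} := measurable_fst hAm
    have e : R = {p : Y × ℂ | p.2 ∈ U} ∩
        (({p : Y × ℂ | (p.2, p.1) ∈ E} \ {p : Y × ℂ | p.1 ∈ A}) ∪
          ({p : Y × ℂ | p.1 ∈ A} \ {p : Y × ℂ | (p.2, p.1) ∈ E})) := by
      ext p
      simp only [hR, mem_ofPred_eq, mem_inter_iff, mem_union, mem_sdiff]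
      tauto
    rw [e]
    exact h1.inter ((h2.diff h3).union (h3.diff h2))
  have hRc : ∀ y, {t | (y, t) ∈ R}.Countable := by
    intro y
    by_cases hy : y ∈ A
    · refine (hAt y hy).mono ?_
      rintro t ⟨ht, h1⟩
      refine ⟨ht, fun h2 => h1 ⟨fun _ => hy, fun _ => h2⟩⟩
    · refine (hAf y hy).mono ?_
      rintro t ⟨ht, h1⟩
      refine ⟨ht, ?_⟩
      by_contra h2
      exact h1 ⟨fun h3 => absurd h3 h2, fun h3 => absurd h3 hy⟩
  obtain ⟨g, D, hg, hD, hgD, -⟩ := Pool.Agent.Helper105.enum (0 : ℂ) hRm hRc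
  refine ⟨A, hAm, fun I hI hIs => ⟨⋃ n, {t | D n ∩ g n ⁻¹' {t} ∉ I},
    countable_iUnion fun n => hIs.fibres hI (hg n) (hD n), ?_⟩⟩
  intro t ht htC
  have h1 : ∀ n, D n ∩ g n ⁻¹' {t} ∈ I := by
    intro n
    by_contra h2
    exact htC (mem_iUnion.2 ⟨n, h2⟩)
  refine hI.mono _ _ ?_ (hI.iUnion _ h1)
  intro y hy
  have h2 : (y, t) ∈ R := by
    refine ⟨ht, ?_⟩
    rcases (Set.mem_symmDiff).1 hy with ⟨h3, h4⟩ | ⟨h3, h4⟩
    · exact fun h5 => h4 (h5.1 h3)
    · exact fun h5 => h4 (h5.2 h3)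
  obtain ⟨n, h3, h4⟩ := (hgD y t).1 h2
  exact mem_iUnion.2 ⟨n, h3, h4⟩

/-- two sections which are both equal to `A` modulo the ideal are equal modulo the ideal -/
theorem IsSigmaIdeal.symm_trans {Y : Type*} {I : Set (Set Y)} (hI : IsSigmaIdeal I) {S T A : Set Y}
    (h1 : symmDiff S A ∈ I) (h2 : symmDiff T A ∈ I) : symmDiff S T ∈ I := by
  refine hI.mono _ _ ?_ (hI.union h1 h2)
  intro y hy
  rcases (Set.mem_symmDiff).1 hy with ⟨h3, h4⟩ | ⟨h3, h4⟩
  · by_cases h5 : y ∈ A
    · exact Or.inr ((Set.mem_symmDiff).2 (Or.inr ⟨h5, h4⟩))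
    · exact Or.inl ((Set.mem_symmDiff).2 (Or.inl ⟨h3, h5⟩))
  · by_cases h5 : y ∈ A
    · exact Or.inl ((Set.mem_symmDiff).2 (Or.inr ⟨h5, h4⟩))
    · exact Or.inr ((Set.mem_symmDiff).2 (Or.inl ⟨h3, h5⟩))

/-- the sections along an analytic curve are constant modulo the ideal, off a countable set -/
theorem CQ.slender_sections {m : ℕ} {Y : Type*} [MeasurableSpace Y] [StandardBorelSpace Y]
    {ι : Type*} {X : ι → Set ((Fin m → ℂ) × Y)} (hX : ∀ i, MeasurableSet (X i))
    (h : ∀ i y, CQ m {s | (s, y) ∈ X i}) (i : ι) (U : Set ℂ) (hU : IsOpen U)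
    (hUc : IsPreconnected U) (γ : ℂ → (Fin m → ℂ)) (hγ : AnalyticOnNhd ℂ γ U)
    {I : Set (Set Y)} (hI : IsSigmaIdeal I) (hIs : Slender I) :
    ∃ (C : Set ℂ) (A : Set Y), C.Countable ∧ ∀ t ∈ U, t ∉ C →
      symmDiff {y | (γ t, y) ∈ X i} A ∈ I := by
  classical
  have hγc : ContinuousOn γ U := hγ.continuousOn
  have hγm : Measurable (U.piecewise γ (fun _ => 0)) :=
    hγc.measurable_piecewise continuousOn_const hU.measurableSet
  set γ' := U.piecewise γ (fun _ => 0) with hγ'
  have heq : ∀ t ∈ U, γ' t = γ t := fun t ht => Set.piecewise_eq_of_mem _ _ _ ht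
  set E : Set (ℂ × Y) := {p | (γ' p.1, p.2) ∈ X i} with hEdef
  have hE : MeasurableSet E := ((hγm.comp measurable_fst).prodMk measurable_snd) (hX i)
  obtain ⟨A, -, hA⟩ := core (Y := Y) hU.measurableSet hE (by
    intro y
    rcases h i y U hU hUc γ hγ with h1 | h1
    · left
      refine h1.mono ?_
      rintro t ⟨ht, h2⟩
      refine ⟨ht, ?_⟩
      show (γ t, y) ∈ X i
      rw [← heq t ht]
      exact h2
    · right
      refine h1.mono ?_
      rintro t ⟨ht, h2⟩
      refine ⟨ht, fun h3 => h2 ?_⟩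
      show (γ' t, y) ∈ X i
      rw [heq t ht]
      exact h3)
  obtain ⟨C, hC, hCt⟩ := hA I hI hIs
  have e1 : ∀ t ∈ U, {y | (t, y) ∈ E} = {y | (γ t, y) ∈ X i} := by
    intro t ht
    ext y
    show (γ' t, y) ∈ X i ↔ (γ t, y) ∈ X i
    rw [heq t ht]
  refine ⟨C, A, hC, fun t ht htC => ?_⟩
  have h1 := hCt t ht htC
  rwa [e1 t ht] at h1

/-- the closure condition -/
theorem CQ.slender {m : ℕ} {Y : Type*} [MeasurableSpace Y] [StandardBorelSpace Y]
    {I : Set (Set Y)} (hI : IsSigmaIdeal I) (hIs : Slender I) {P : Set (Set Y)}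
    (hP : ∀ A B : Set Y, symmDiff A B ∈ I → A ∈ P → B ∈ P)
    {X : Set ((Fin m → ℂ) × Y)} (hX : MeasurableSet X) (h : ∀ y, CQ m {s | (s, y) ∈ X}) :
    CQ m {s | {y | (s, y) ∈ X} ∈ P} := by
  intro U hU hUc γ hγ
  obtain ⟨C, A, hC, hA⟩ := CQ.slender_sections (ι := Unit) (X := fun _ => X) (fun _ => hX)
    (fun _ => h) () U hU hUc γ hγ hI hIs
  refine QmOn.of_const hC ?_
  intro t ht htC t' ht' htC' htS
  exact hP _ _ (hI.symm_trans (hA t ht htC) (hA t' ht' htC')) htS

/-- the characterization of slender ideals -/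
theorem slender_iff {Y : Type*} [MeasurableSpace Y] [StandardBorelSpace Y] {I : Set (Set Y)}
    (hI : IsSigmaIdeal I) : Slender I ↔ ∀ X : Set (ℂ × Y), MeasurableSet X →
      (∀ y, {t | (t, y) ∈ X}.Countable ∨ {t | (t, y) ∉ X}.Countable) →
      {t | {y | (t, y) ∈ X} ∈ I}.Countable ∨ {t | {y | (t, y) ∈ X} ∉ I}.Countable := by
  constructor
  · intro hIs X hX h
    obtain ⟨A, -, hA⟩ := core (Y := Y) MeasurableSet.univ hX (by
      intro y
      rcases h y with h1 | h1
      · exact Or.inl (h1.mono fun t ht => ht.2)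
      · exact Or.inr (h1.mono fun t ht => ht.2))
    obtain ⟨C, hC, hCt⟩ := hA I hI hIs
    have h2 : ∀ t ∉ C, ∀ t' ∉ C, {y | (t, y) ∈ X} ∈ I → {y | (t', y) ∈ X} ∈ I := by
      intro t ht t' ht' h3
      have h4 := hI.symm_trans (hCt t (mem_univ _) ht) (hCt t' (mem_univ _) ht')
      refine hI.mono _ _ ?_ (hI.union h3 h4)
      intro y hy
      by_cases h5 : (t, y) ∈ X
      · exact Or.inl h5
      · exact Or.inr ((Set.mem_symmDiff).2 (Or.inr ⟨hy, h5⟩))
    by_cases h3 : ∃ t ∉ C, {y | (t, y) ∈ X} ∈ I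
    · obtain ⟨t, ht, h4⟩ := h3
      right
      refine hC.mono ?_
      intro t' ht'
      by_contra hC'
      exact ht' (h2 t ht t' hC' h4)
    · push Not at h3
      left
      refine hC.mono ?_
      intro t' ht'
      by_contra hC'
      exact h3 t' hC' ht'
  · intro h g hg
    set N : Set ℂ := {t : ℂ | g ⁻¹' {t} ∉ I} with hN
    by_contra hunc
    have key : ∀ E : Set ℂ, MeasurableSet E → (Eᶜ ∪ Nᶜ).Countable ∨ (E ∩ N).Countable := by
      intro E hE
      have hm : MeasurableSet {p : ℂ × Y | g p.2 = p.1 ∧ p.1 ∈ E} :=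
        (measurableSet_eq_fun (hg.comp measurable_snd) measurable_fst).inter (measurable_fst hE)
      have h1 := h {p : ℂ × Y | g p.2 = p.1 ∧ p.1 ∈ E} hm (by
        intro y
        left
        refine (countable_singleton (g y)).mono ?_
        rintro t ⟨ht, -⟩
        exact ht.symm)
      rcases h1 with h1 | h1
      · left
        refine h1.mono ?_
        intro t ht
        show {y | g y = t ∧ t ∈ E} ∈ I
        rcases ht with ht | ht
        · refine hI.mono _ _ ?_ hI.empty
          rintro y ⟨-, hy⟩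
          exact absurd hy ht
        · have h2 : g ⁻¹' {t} ∈ I := by
            by_contra h2
            exact ht h2
          refine hI.mono _ _ ?_ h2
          rintro y ⟨hy, -⟩
          exact hy
      · right
        refine h1.mono ?_
        rintro t ⟨htE, htN⟩ h2
        apply htN
        refine hI.mono _ _ ?_ h2
        intro y hy
        exact ⟨hy, htE⟩
    have h1 : (Nᶜ).Countable := by
      rcases key univ MeasurableSet.univ with h1 | h1
      · exact h1.mono subset_union_right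
      · exact absurd (h1.mono fun t ht => (⟨mem_univ t, ht⟩ : t ∈ univ ∩ N)) hunc
    have hre : MeasurableSet {z : ℂ | 0 < z.re} :=
      measurableSet_lt measurable_const Complex.measurable_re
    have unc : ∀ f : ℝ → ℂ, Function.Injective f → ∀ S : Set ℂ, (∀ x, 0 < x → f x ∈ S) →
        ¬ S.Countable := by
      intro f hf S hS hc
      have h2 : (Ioi (0 : ℝ)).Countable := by
        have h3 : (f '' Ioi 0).Countable := hc.mono (by
          rintro _ ⟨x, hx, rfl⟩
          exact hS x hx)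
        exact Set.countable_of_injective_of_countable_image hf.injOn h3
      have h4 := Cardinal.mk_Ioi_real 0
      have h5 : Cardinal.mk (Ioi (0 : ℝ)) ≤ Cardinal.aleph0 :=
        Cardinal.le_aleph0_iff_set_countable.2 h2
      rw [h4] at h5
      exact absurd h5 (not_le.2 Cardinal.aleph0_lt_continuum)
    rcases key {z : ℂ | 0 < z.re} hre with h2 | h2
    · refine unc (fun x => ((-x : ℝ) : ℂ)) ?_ _ ?_ h2
      · intro a b hab
        have h3 := Complex.ofReal_injective hab
        linarith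
      · intro x hx
        left
        show ¬ (0 < (((-x : ℝ) : ℂ)).re)
        rw [Complex.ofReal_re]
        linarith
    · have h3 : {z : ℂ | 0 < z.re}.Countable := by
        refine (h2.union h1).mono ?_
        intro z hz
        by_cases hzN : z ∈ N
        · exact Or.inl ⟨hz, hzN⟩
        · exact Or.inr hzN
      refine unc (fun x => ((x : ℝ) : ℂ)) Complex.ofReal_injective _ ?_ h3
      intro x hx
      show 0 < ((x : ℂ)).re
      rw [Complex.ofReal_re]
      exact hx

end Pool.Agent.L5helper75.QC
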