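import Mathlib
import Pool.Agent.L5helper75.QC.Rank
import Pool.Agent.L5helper75.QC.Slender

/-!
# A relation of Sierpiński type with countable or cocountable traces on all analytic curves

Under the continuum hypothesis the complex plane is the union of an increasing chain of type `ω₁` of
countable sets `Cl α` such that every analytic function `g` on an open set maps `Cl α` to `Cl α` and
(if its fibres are countable) the complement of `Cl α` to the complement, for all large `α`.
-/

set_option autoImplicit false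

namespace Pool.Agent.L5helper75.QC

open Set Metric Pool.Agent.TH735.QM Pool.Agent.Y566.GQ

/-- the indices: balls and power series -/
abbrev Jx : Type := (ℕ × ℕ) × (ℕ → ℂ)

/-- the balls -/
noncomputable def ballq (q : ℕ × ℕ) : Set ℂ :=
  ball (TopologicalSpace.denseSeq ℂ q.1) (1 / ((q.2 : ℝ) + 1))

/-- the power series -/
noncomputable def pser (β : Jx) (z : ℂ) : ℂ :=
  ∑' n : ℕ, β.2 n * (z - TopologicalSpace.denseSeq ℂ β.1.1) ^ n

theorem exists_ballq {U : Set ℂ} (hU : IsOpen U) {t : ℂ} (ht : t ∈ U) :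
    ∃ q, t ∈ ballq q ∧ ballq q ⊆ U := by
  obtain ⟨ε, hε, hεU⟩ := Metric.isOpen_iff.1 hU t ht
  obtain ⟨j, hj⟩ := exists_nat_one_div_lt (half_pos hε)
  have hj0 : (0 : ℝ) < 1 / ((j : ℝ) + 1) := by positivity
  obtain ⟨i, hi⟩ := (TopologicalSpace.denseRange_denseSeq ℂ).exists_dist_lt t hj0
  refine ⟨(i, j), ?_, ?_⟩
  · exact hi
  · intro x hx
    apply hεU
    have h1 : dist x (TopologicalSpace.denseSeq ℂ i) < 1 / ((j : ℝ) + 1) := hx
    have h2 := dist_triangle x (TopologicalSpace.denseSeq ℂ i) t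
    rw [dist_comm t] at hi
    show dist x t < ε
    linarith

theorem exists_pser {q : ℕ × ℕ} {g : ℂ → ℂ} (hg : DifferentiableOn ℂ g (ballq q)) :
    ∃ β : Jx, β.1 = q ∧ ∀ z ∈ ballq q, pser β z = g z := by
  refine ⟨(q, fun n => (n.factorial : ℂ)⁻¹ * iteratedDeriv n g (TopologicalSpace.denseSeq ℂ q.1)),
    rfl, ?_⟩
  intro z hz
  exact Complex.taylorSeries_eq_on_ball' hz hg

theorem mk_Jx : Cardinal.mk Jx = Cardinal.continuum := by
  have h1 : Cardinal.mk (ℕ → ℂ) = Cardinal.continuum := by
    rw [← Cardinal.power_def, Cardinal.mk_complex, Cardinal.mk_nat,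
      Cardinal.continuum_power_aleph0]
  rw [Cardinal.mk_prod, Cardinal.lift_id, Cardinal.lift_id, h1, Cardinal.mk_eq_aleph0 (ℕ × ℕ),
    Cardinal.aleph0_mul_continuum]

section order

variable [LinearOrder Jx]

/-- the countable sets of the chain -/
noncomputable def Chain (α : Jx) : Set ℂ :=
  Cl (fun β : Jx => β.2 0) (fun β => ballq β.1) pser α

theorem chain_mono {α α' : Jx} (h : α ≤ α') : Chain α ⊆ Chain α' := Cl_mono h

theorem exists_mem_chain (z : ℂ) : ∃ α, z ∈ Chain α :=
  ⟨((0, 0), fun _ => z), Cl_base (z := fun β : Jx => β.2 0) le_rfl⟩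

theorem chain_countable (h1 : ∀ α : Jx, (Iic α).Countable) (α : Jx) : (Chain α).Countable :=
  Cl_countable (h1 α)

theorem chain_bound (h1 : ∀ α : Jx, (Iic α).Countable) (h2 : ¬ Countable Jx) {U : Set ℂ}
    (hU : IsOpen U) {g : ℂ → ℂ} (hg : AnalyticOnNhd ℂ g U) :
    ∃ α₀ : Jx, ∀ α, α₀ ≤ α → ∀ t ∈ U, (t ∈ Chain α → g t ∈ Chain α) ∧
      ((∀ w, (U ∩ g ⁻¹' {w}).Countable) → g t ∈ Chain α → t ∈ Chain α) := by
  classical
  have h3 : ∀ q : ℕ × ℕ, ballq q ⊆ U → ∃ β : Jx, β.1 = q ∧ ∀ z ∈ ballq q, pser β z = g z :=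
    fun q hq => exists_pser ((hg.mono hq).differentiableOn)
  choose! b hb1 hb2 using h3
  obtain ⟨α₀, hα₀⟩ := exists_bound h1 h2 (S := range b) (countable_range b)
  refine ⟨α₀, fun α hα t ht => ?_⟩
  obtain ⟨q, hq1, hq2⟩ := exists_ballq hU ht
  have h4 : b q ≤ α := (hα₀ _ (mem_range_self q)).trans hα
  have h5 : t ∈ ballq (b q).1 := by rw [hb1 q hq2]; exact hq1
  have h6 : pser (b q) t = g t := hb2 q hq2 t hq1
  refine ⟨fun h => ?_, fun hw h => ?_⟩
  · rw [← h6]
    exact Cl_image h4 h h5
  · refine Cl_fibre (β := b q) h4 ?_ h5 ?_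
    · show pser (b q) t ∈ Chain α
      rw [h6]
      exact h
    · intro w
      refine (hw w).mono ?_
      rintro x ⟨hx1, hx2⟩
      have hx3 : x ∈ ballq q := by
        have : x ∈ ballq (b q).1 := hx1
        rwa [hb1 q hq2] at this
      refine ⟨hq2 hx3, ?_⟩
      show g x = w
      rw [← hb2 q hq2 x hx3]
      exact hx2

end order

/-- an analytic function on an open connected set is constant or has countable fibres -/
theorem const_or_fibres {U : Set ℂ} (hUc : IsPreconnected U) {g : ℂ → ℂ}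
    (hg : AnalyticOnNhd ℂ g U) :
    (∃ w, ∀ t ∈ U, g t = w) ∨ ∀ w, (U ∩ g ⁻¹' {w}).Countable := by
  by_cases h : ∃ w, ∀ t ∈ U, g t = w
  · exact Or.inl h
  · right
    push Not at h
    intro w
    obtain ⟨t, ht, htw⟩ := h w
    have h1 := zeros_countableOn (f := fun t => g t - w) hUc
      (fun t ht => (hg t ht).sub analyticAt_const) ⟨t, ht, sub_ne_zero.2 htw⟩
    refine h1.mono ?_
    rintro x ⟨hx1, hx2⟩
    refine ⟨hx1, ?_⟩
    have : g x = w := hx2
    simp [this]

/-- under the continuum hypothesis the quantifier 'for uncountably many' leads out of the class of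
relations with countable or cocountable traces on analytic curves -/
theorem exists_sierpinski (hCH : Cardinal.continuum.{0} = Cardinal.aleph 1) :
    ∃ X : Set (Fin 2 → ℂ), CQ 2 X ∧
      {s : Fin 1 → ℂ | ¬ (Sec X s).Countable} = {s | ¬ 0 < (s 0).re} := by
  classical
  obtain ⟨hlo, hwf, h1⟩ := exists_order (J := Jx) (mk_Jx.trans hCH)
  have h2 : ¬ Countable Jx := by
    intro h
    have h3 := Cardinal.mk_le_aleph0_iff.2 h
    rw [mk_Jx] at h3
    exact absurd h3 (not_le.2 Cardinal.aleph0_lt_continuum)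
  have hr : ∀ z : ℂ, ∃ ρ : Jx, ∀ α, z ∈ Chain α ↔ ρ ≤ α := by
    intro z
    have hne : {α | z ∈ Chain α}.Nonempty := exists_mem_chain z
    refine ⟨hwf.wf.min {α | z ∈ Chain α} hne, fun α => ⟨fun h => ?_, fun h => ?_⟩⟩
    · exact not_lt.1 (hwf.wf.not_lt_min {α | z ∈ Chain α} h)
    · exact chain_mono h (hwf.wf.min_mem {α | z ∈ Chain α} hne)
  choose ρ hρ using hr
  refine ⟨{v | ¬ 0 < (v 0).re ∨ ρ (v 1) ≤ ρ (v 0)}, ?_, ?_⟩
  · intro U hU hUc γ hγ
    have hγ0 : AnalyticOnNhd ℂ (fun t => γ t 0) U := fun t ht => (analyticAt_pi_iff.1 (hγ t ht)) 0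
    have hγ1 : AnalyticOnNhd ℂ (fun t => γ t 1) U := fun t ht => (analyticAt_pi_iff.1 (hγ t ht)) 1
    rcases const_or_fibres hUc hγ0 with ⟨s, hs⟩ | hf0
    · by_cases hse : 0 < s.re
      · rcases const_or_fibres hUc hγ1 with ⟨x, hx⟩ | hf1
        · by_cases hxs : ρ x ≤ ρ s
          · right
            refine countable_empty.mono ?_
            rintro t ⟨ht, htX⟩
            apply htX
            right
            show ρ (γ t 1) ≤ ρ (γ t 0)
            rw [show γ t 1 = x from hx t ht, show γ t 0 = s from hs t ht]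
            exact hxs
          · left
            refine countable_empty.mono ?_
            rintro t ⟨ht, htX | htX⟩
            · apply htX
              rw [show γ t 0 = s from hs t ht]
              exact hse
            · apply hxs
              rw [show γ t 1 = x from hx t ht, show γ t 0 = s from hs t ht] at htX
              exact htX
        · left
          have h3 : (⋃ w ∈ Chain (ρ s), (U ∩ (fun t => γ t 1) ⁻¹' {w})).Countable :=
            (chain_countable h1 _).biUnion fun w _ => hf1 w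
          refine h3.mono ?_
          rintro t ⟨ht, htX | htX⟩
          · exfalso
            apply htX
            rw [show γ t 0 = s from hs t ht]
            exact hse
          · rw [show γ t 0 = s from hs t ht] at htX
            exact mem_biUnion ((hρ _ _).2 htX) ⟨ht, rfl⟩
      · right
        refine countable_empty.mono ?_
        rintro t ⟨ht, htX⟩
        apply htX
        left
        rw [show γ t 0 = s from hs t ht]
        exact hse
    · right
      obtain ⟨α₀, hα₀⟩ := chain_bound h1 h2 hU hγ0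
      obtain ⟨α₁, hα₁⟩ := chain_bound h1 h2 hU hγ1
      refine (chain_countable h1 (max α₀ α₁)).mono ?_
      rintro t ⟨ht, htX⟩
      by_contra htC
      apply htX
      right
      have h3 : max α₀ α₁ < ρ t := by
        by_contra h4
        exact htC ((hρ t _).2 (not_lt.1 h4))
      -- the rank of `γ₁ t` is at most the rank of `t`
      have h5 : ρ (γ t 1) ≤ ρ t :=
        (hρ _ _).1 ((hα₁ (ρ t) ((le_max_right _ _).trans h3.le) t ht).1 ((hρ t _).2 le_rfl))
      -- the rank of `t` is at most the rank of `γ₀ t`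
      have h6 : ρ t ≤ ρ (γ t 0) := by
        rcases le_total α₀ (ρ (γ t 0)) with h7 | h7
        · exact (hρ t _).1 ((hα₀ _ h7 t ht).2 hf0 ((hρ (γ t 0) _).2 le_rfl))
        · exfalso
          have h8 : t ∈ Chain α₀ := (hα₀ α₀ le_rfl t ht).2 hf0 ((hρ (γ t 0) _).2 h7)
          have h9 := (hρ t _).1 h8
          exact absurd (h9.trans (le_max_left α₀ α₁)) (not_le.2 h3)
      exact h5.trans h6
  · ext s
    constructor
    · intro h3 h4
      apply h3
      refine (chain_countable h1 (ρ (s 0))).mono ?_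
      intro x hx
      have hx' : ¬ 0 < ((Fin.snoc (α := fun _ => ℂ) s x : Fin 2 → ℂ) 0).re ∨
          ρ ((Fin.snoc (α := fun _ => ℂ) s x : Fin 2 → ℂ) 1) ≤
            ρ ((Fin.snoc (α := fun _ => ℂ) s x : Fin 2 → ℂ) 0) := hx
      have e0 : (Fin.snoc (α := fun _ => ℂ) s x : Fin 2 → ℂ) 0 = s 0 :=
        Fin.snoc_castSucc (α := fun _ => ℂ) (n := 1) x s 0
      have e1 : (Fin.snoc (α := fun _ => ℂ) s x : Fin 2 → ℂ) 1 = x :=
        Fin.snoc_last (α := fun _ => ℂ) (n := 1) x s
      rw [e0, e1] at hx'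
      rcases hx' with hx' | hx'
      · exact absurd h4 hx'
      · exact (hρ x _).2 hx'
    · intro h3 h4
      have h5 : Sec {v : Fin 2 → ℂ | ¬ 0 < (v 0).re ∨ ρ (v 1) ≤ ρ (v 0)} s = univ := by
        refine eq_univ_of_forall fun x => ?_
        left
        have e0 : (Fin.snoc (α := fun _ => ℂ) s x : Fin 2 → ℂ) 0 = s 0 :=
          Fin.snoc_castSucc (α := fun _ => ℂ) (n := 1) x s 0
        show ¬ 0 < ((Fin.snoc (α := fun _ => ℂ) s x : Fin 2 → ℂ) 0).re
        rw [e0]
        exact h3
      rw [h5] at h4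
      have h6 := Cardinal.le_aleph0_iff_set_countable.2 h4
      rw [Cardinal.mk_univ, Cardinal.mk_complex] at h6
      exact absurd h6 (not_le.2 Cardinal.aleph0_lt_continuum)

end Pool.Agent.L5helper75.QC
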