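import Mathlib
import Pool.Agent.L5helper75.QC.Piece

/-!
# Elimination of the quantifier 'for uncountably many' and the continuum hypothesis

If the continuum hypothesis fails, the class of all relations with countable or cocountable traces on
analytic curves is closed under the quantifier 'for uncountably many', and conversely. The class is
always closed under all countable propositional connectives.
-/

set_option autoImplicit false

namespace Pool.Agent.L5helper75.QC

open Set Cardinal Pool.Agent.TH735.QM Pool.Agent.Y566.GQ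

/-- arbitrary countable propositional connectives -/
theorem CQ.connective {m : ℕ} {X : ℕ → Set (Fin m → ℂ)} (hX : ∀ i, CQ m (X i))
    (W : Set (Set ℕ)) : CQ m {s | {i | s ∈ X i} ∈ W} := by
  intro U hU hUc γ hγ
  choose B hB hBx using fun i => QmOn.const (hX i U hU hUc γ hγ)
  refine QmOn.of_const (B := ⋃ i, B i) (countable_iUnion hB) ?_
  intro t ht htB t' ht' htB' htS
  have h1 : {i | γ t' ∈ X i} = {i | γ t ∈ X i} := by
    ext i
    exact hBx i t' ht' (fun h => htB' (mem_iUnion.2 ⟨i, h⟩)) t ht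
      (fun h => htB (mem_iUnion.2 ⟨i, h⟩))
  show {i | γ t' ∈ X i} ∈ W
  rw [h1]
  exact htS

/-- the quantifier 'for at least `κ` numbers' over connectives of Borel relations -/
theorem CQ.generic_conn {m : ℕ} {X : ℕ → Set (Fin (m + 1) → ℂ)} (hX : ∀ i, CQ (m + 1) (X i))
    (hXm : ∀ i, MeasurableSet (X i)) (W : Set (Set ℕ)) {κ : Cardinal.{0}} (hκ : ℵ₀ < κ) :
    CQ m {s | κ ≤ #({x : ℂ | {i | (Fin.snoc (α := fun _ => ℂ) s x : Fin (m + 1) → ℂ) ∈ X i} ∈ W}
      : Set ℂ)} := by
  have hY : CQ (m + 1) {v | {i | v ∈ X i} ∈ W} := CQ.connective hX W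
  by_cases hk : κ ≤ #ℂ
  · have h1 : {s : Fin m → ℂ | κ ≤ #({x : ℂ | {i | (Fin.snoc (α := fun _ => ℂ) s x :
        Fin (m + 1) → ℂ) ∈ X i} ∈ W} : Set ℂ)} = {s | {i | s ∈ {s | ¬ (Sec (X i) s).Countable}} ∈ W} := by
      ext s
      refine (card_iff hY hκ s).trans ?_
      -- the exceptional numbers
      have h2 : ∀ i, ∃ B : Set ℂ, B.Countable ∧ ∀ x ∉ B, (x ∈ Sec (X i) s ↔
          ¬ (Sec (X i) s).Countable) := by
        intro i
        rcases Sec_qm (hX i) s with h3 | h3
        · exact ⟨_, h3, fun x hx => ⟨fun h4 => absurd h4 hx, fun h4 => absurd h3 h4⟩⟩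
        · refine ⟨_, h3, fun x hx => ⟨fun _ h4 => ?_, fun _ => by_contra fun h5 => hx h5⟩⟩
          have h5 := h4.union h3
          rw [union_compl_self] at h5
          have h6 := Cardinal.le_aleph0_iff_set_countable.2 h5
          rw [Cardinal.mk_univ, Cardinal.mk_complex] at h6
          exact absurd h6 (not_le.2 Cardinal.aleph0_lt_continuum)
      choose B hB hBx using h2
      have h7 : ∀ x ∉ ⋃ i, B i, {i | (Fin.snoc (α := fun _ => ℂ) s x : Fin (m + 1) → ℂ) ∈ X i} =
          {i | s ∈ {s | ¬ (Sec (X i) s).Countable}} := by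
        intro x hx
        ext i
        exact hBx i x fun h8 => hx (mem_iUnion.2 ⟨i, h8⟩)
      constructor
      · rintro ⟨-, h3⟩
        by_contra h4
        apply h3
        refine (countable_iUnion hB).mono ?_
        intro x hx
        by_contra h5
        apply h4
        show {i | s ∈ {s | ¬ (Sec (X i) s).Countable}} ∈ W
        rw [← h7 x h5]
        exact hx
      · intro h3
        refine ⟨hk, fun h4 => ?_⟩
        have h5 := h4.union (countable_iUnion hB)
        have h6 : Sec {v | {i | v ∈ X i} ∈ W} s ∪ ⋃ i, B i = Set.univ := by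
          refine eq_univ_of_forall fun x => ?_
          by_cases h8 : x ∈ ⋃ i, B i
          · exact Or.inr h8
          · left
            show {i | (Fin.snoc (α := fun _ => ℂ) s x : Fin (m + 1) → ℂ) ∈ X i} ∈ W
            rw [h7 x h8]
            exact h3
        rw [h6] at h5
        have h9 := Cardinal.le_aleph0_iff_set_countable.2 h5
        rw [Cardinal.mk_univ, Cardinal.mk_complex] at h9
        exact absurd h9 (not_le.2 Cardinal.aleph0_lt_continuum)
    rw [h1]
    exact CQ.connective (fun i => CQ_unc (hX i) (hXm i)) W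
  · intro U _ _ γ _
    left
    refine countable_empty.mono ?_
    rintro t ⟨-, ht⟩
    exact hk (le_trans (show κ ≤ _ from ht) (Cardinal.mk_set_le _))

/-- the quantifiers of slender ideals over connectives of Borel relations -/
theorem CQ.slender_conn {m : ℕ} {Y : Type*} [MeasurableSpace Y] [StandardBorelSpace Y]
    {I : Set (Set Y)} (hI : IsSigmaIdeal I) (hIs : Slender I) {P : Set (Set Y)}
    (hP : ∀ A B : Set Y, symmDiff A B ∈ I → A ∈ P → B ∈ P)
    {X : ℕ → Set ((Fin m → ℂ) × Y)} (hX : ∀ i, MeasurableSet (X i))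
    (h : ∀ i y, CQ m {s | (s, y) ∈ X i}) (W : Set (Set ℕ)) :
    CQ m {s | {y | {i | (s, y) ∈ X i} ∈ W} ∈ P} := by
  intro U hU hUc γ hγ
  have h1 : ∀ i, ∃ C : Set ℂ, C.Countable ∧ ∀ t ∈ U, t ∉ C → ∀ t' ∈ U, t' ∉ C →
      symmDiff {y | (γ t, y) ∈ X i} {y | (γ t', y) ∈ X i} ∈ I := by
    intro i
    obtain ⟨C, A, hC, hA⟩ := CQ.slender_sections hX h i U hU hUc γ hγ hI hIs
    exact ⟨C, hC, fun t ht htC t' ht' htC' => hI.symm_trans (hA t ht htC) (hA t' ht' htC')⟩
  choose C hC hCt using h1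
  refine QmOn.of_const (B := ⋃ i, C i) (countable_iUnion hC) ?_
  intro t ht htC t' ht' htC' htS
  refine hP _ _ ?_ htS
  refine hI.mono _ _ ?_ (hI.iUnion _ fun i => hCt i t ht (fun h => htC (mem_iUnion.2 ⟨i, h⟩)) t' ht'
    (fun h => htC' (mem_iUnion.2 ⟨i, h⟩)))
  intro y hy
  by_contra hno
  have h2 : {i | (γ t, y) ∈ X i} = {i | (γ t', y) ∈ X i} := by
    ext i
    by_contra h3
    apply hno
    refine mem_iUnion.2 ⟨i, ?_⟩
    rw [Set.mem_symmDiff]
    simp only [mem_ofPred_eq] at h3 ⊢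
    tauto
  rw [Set.mem_symmDiff] at hy
  simp only [mem_ofPred_eq, h2] at hy
  tauto

/-- an uncountable set has a subset of cardinality `ℵ₁` -/
theorem exists_subset_aleph_one {T : Set ℂ} (hT : ¬ T.Countable) :
    ∃ S : Set ℂ, S ⊆ T ∧ #S = ℵ₁ := by
  have h1 : ℵ₁ ≤ #T := by
    rw [← Cardinal.succ_aleph0, Order.succ_le_iff]
    exact not_le.1 fun h => hT (Cardinal.le_aleph0_iff_set_countable.1 h)
  obtain ⟨S, hS, hSc⟩ := Cardinal.le_mk_iff_exists_subset.1 h1
  exact ⟨S, hS, hSc⟩

/-- without the continuum hypothesis -/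
theorem CQ_unc_of_not_CH (h : ℵ₁ < Cardinal.continuum.{0}) {m : ℕ} {X : Set (Fin (m + 1) → ℂ)}
    (hX : CQ (m + 1) X) : CQ m {s | ¬ (Sec X s).Countable} := by
  intro U hU hUc γ hγ
  by_contra hcon
  unfold QmOn at hcon
  push Not at hcon
  obtain ⟨hc1, hc0⟩ := hcon
  obtain ⟨S1, hS1, hS1c⟩ := exists_subset_aleph_one hc1
  obtain ⟨S0, hS0, hS0c⟩ := exists_subset_aleph_one hc0
  -- the exceptional values of `x`
  have hb1 : ∀ t ∈ S1, ((Sec X (γ t))ᶜ).Countable := by
    intro t ht
    rcases Sec_qm hX (γ t) with h1 | h1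
    · exact absurd h1 (hS1 ht).2
    · exact h1
  have hb0 : ∀ t ∈ S0, (Sec X (γ t)).Countable := by
    intro t ht
    by_contra h1
    exact (hS0 ht).2 h1
  have card : ∀ (S : Set ℂ) (F : ℂ → Set ℂ), #S = ℵ₁ → (∀ t ∈ S, (F t).Countable) →
      #(⋃ t ∈ S, F t : Set ℂ) ≤ ℵ₁ := by
    intro S F hS hF
    refine (Cardinal.mk_biUnion_le F S).trans ?_
    rw [hS]
    refine (Cardinal.mul_le_max_of_aleph0_le_left (Cardinal.aleph0_le_aleph 1)).trans ?_
    refine max_le le_rfl ?_
    refine ciSup_le' fun t => ?_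
    exact (Cardinal.le_aleph0_iff_set_countable.2 (hF t.1 t.2)).trans (Cardinal.aleph0_le_aleph 1)
  have hne : ∃ x, x ∉ (⋃ t ∈ S1, (Sec X (γ t))ᶜ) ∪ ⋃ t ∈ S0, Sec X (γ t) := by
    by_contra hno
    push Not at hno
    have h1 : (⋃ t ∈ S1, (Sec X (γ t))ᶜ) ∪ ⋃ t ∈ S0, Sec X (γ t) = Set.univ :=
      eq_univ_of_forall hno
    have h2 : #(Set.univ : Set ℂ) ≤ ℵ₁ := by
      rw [← h1]
      refine (Cardinal.mk_union_le _ _).trans ?_
      refine (add_le_add (card S1 _ hS1c hb1) (card S0 _ hS0c hb0)).trans ?_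
      rw [Cardinal.add_eq_self (Cardinal.aleph0_le_aleph 1)]
    rw [Cardinal.mk_univ, Cardinal.mk_complex] at h2
    exact absurd h2 (not_le.2 h)
  obtain ⟨x, hx⟩ := hne
  simp only [mem_union, mem_iUnion, mem_compl_iff, not_or, not_exists] at hx
  have hq := hX U hU hUc (fun t => (Fin.snoc (α := fun _ => ℂ) (γ t) x : Fin (m + 1) → ℂ))
    (analytic_snoc hγ analyticOnNhd_const)
  have hunc : ∀ S : Set ℂ, #S = ℵ₁ → ¬ S.Countable := by
    intro S hS hc
    have h1 := Cardinal.le_aleph0_iff_set_countable.2 hc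
    rw [hS] at h1
    exact absurd h1 (not_le.2 Cardinal.aleph0_lt_aleph_one)
  rcases hq with hq | hq
  · refine hunc S1 hS1c (hq.mono ?_)
    intro t ht
    refine ⟨(hS1 ht).1, ?_⟩
    by_contra h1
    exact hx.1 t ht h1
  · refine hunc S0 hS0c (hq.mono ?_)
    intro t ht
    refine ⟨(hS0 ht).1, ?_⟩
    intro h1
    exact hx.2 t ht h1

/-- the elimination of the quantifier is equivalent to the failure of the continuum hypothesis -/
theorem elim_iff : (∀ (m : ℕ) (X : Set (Fin (m + 1) → ℂ)), CQ (m + 1) X →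
    CQ m {s | ¬ (Sec X s).Countable}) ↔ Cardinal.continuum.{0} ≠ ℵ₁ := by
  constructor
  · intro h hCH
    obtain ⟨X, hX, hXs⟩ := exists_sierpinski hCH
    have h1 := h 1 X hX
    rw [hXs] at h1
    have h2 := h1.qm
    have unc : ∀ f : ℝ → ℂ, Function.Injective f → ∀ S : Set ℂ, (∀ x, 0 < x → f x ∈ S) →
        ¬ S.Countable := by
      intro f hf S hS hc
      have h2 : (Ioi (0 : ℝ)).Countable := by
        have h3 : (f '' Ioi 0).Countable := hc.mono (by
          rintro _ ⟨x, hx, rfl⟩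
          exact hS x hx)
        exact Set.countable_of_injective_of_countable_image hf.injOn h3
      have h4 := Cardinal.mk_Ioi_real 0
      have h5 : Cardinal.mk (Ioi (0 : ℝ)) ≤ Cardinal.aleph0 :=
        Cardinal.le_aleph0_iff_set_countable.2 h2
      rw [h4] at h5
      exact absurd h5 (not_le.2 Cardinal.aleph0_lt_continuum)
    rcases h2 with h2 | h2
    · refine unc (fun x => ((-x : ℝ) : ℂ)) ?_ _ ?_ h2
      · intro a b hab
        have h3 := Complex.ofReal_injective hab
        linarith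
      · intro x hx
        show ¬ (0 < (((-x : ℝ) : ℂ)).re)
        rw [Complex.ofReal_re]
        linarith
    · refine unc (fun x => ((x : ℝ) : ℂ)) Complex.ofReal_injective _ ?_ h2
      intro x hx h3
      apply h3
      show 0 < ((x : ℂ)).re
      rw [Complex.ofReal_re]
      exact hx
  · intro h m X hX
    exact CQ_unc_of_not_CH (lt_of_le_of_ne Cardinal.aleph_one_le_continuum (Ne.symm h)) hX

end Pool.Agent.L5helper75.QC
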